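import Pool.Agent.K3h56.E2.Stm2

/-!
# The group of the roots of unity of a number field
-/

set_option autoImplicit false

open NumberField IsDedekindDomain Filter Topology

noncomputable section

namespace Pool.Agent.K3h35.E2

open Pool.Agent.K3h30.RS Pool.Agent.K3h56.E2

/-- The number of the roots of unity. -/
theorem card_mu (F : Type) [Field F] [NumberField F] : Nat.card (mu F) = Units.torsionOrder F := by
  let j : (𝓞 F)ˣ →* Fˣ := Units.map (algebraMap (𝓞 F) F : 𝓞 F →* F)
  have hj : Function.Injective j := by
    intro a b hab
    apply Units.ext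
    apply RingOfIntegers.coe_injective
    exact congrArg (fun x : Fˣ => (x : F)) hab
  have h1 : (Units.torsion F).map j = mu F := by
    ext x
    rw [Subgroup.mem_map]
    constructor
    · rintro ⟨y, hy, rfl⟩
      have h2 : IsOfFinOrder y := hy
      exact j.isOfFinOrder h2
    · intro hx
      have h2 : IsOfFinOrder x := hx
      obtain ⟨n, hn, hxn⟩ := isOfFinOrder_iff_pow_eq_one.1 h2
      have h3 : ∀ y : Fˣ, y ^ n = 1 → IsIntegral ℤ (y : F) := by
        intro y hy
        refine IsIntegral.of_pow hn ?_
        rw [← Units.val_pow_eq_pow_val, hy, Units.val_one]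
        exact isIntegral_one
      have h4 := h3 x hxn
      have h5 := h3 x⁻¹ (by rw [inv_pow, hxn, inv_one])
      let y : (𝓞 F)ˣ := ⟨⟨(x : F), h4⟩, ⟨((x⁻¹ : Fˣ) : F), h5⟩, by
        apply RingOfIntegers.coe_injective
        exact Units.mul_inv x, by
        apply RingOfIntegers.coe_injective
        exact Units.inv_mul x⟩
      have hy : j y = x := by
        apply Units.ext
        rfl
      refine ⟨y, ?_, hy⟩
      change IsOfFinOrder y
      rw [isOfFinOrder_iff_pow_eq_one]
      refine ⟨n, hn, hj ?_⟩
      rw [map_pow, hy, hxn, map_one]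
  rw [← h1, Units.torsionOrder]
  exact Subgroup.card_map_of_injective hj

end Pool.Agent.K3h35.E2
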