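import Pool.Agent.K3h35.E2.Mu

/-!
# The trivial character, explicit form
-/

set_option autoImplicit false

open NumberField IsDedekindDomain Filter Topology

noncomputable section

namespace Pool.Agent.K3h35.E2

open Pool.Agent.K3h30.RS Pool.Agent.K3h56.E2

/-- The arithmetic of the leading term. -/
theorem final {q wF h hS c R P det I B X : ℝ} {σ : ℝ} (hh : h = hS * c)
    (h1 : |q| * wF = h * R * P) (h2 : |det| = I * (R * c * P)) (h3 : wF * I = X)
    (h4 : X * B = σ) (hB : 0 ≤ hS * B) (hσ : 0 ≤ σ) :
    q * σ = hS * B * det ∨ q * σ = -(hS * B * det) := by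
  have h5 : |q * σ| = |hS * B * det| := by
    rw [abs_mul, abs_mul, abs_of_nonneg hσ, abs_of_nonneg hB, h2, ← h4, ← h3]
    have : |q| * (wF * I * B) = (|q| * wF) * (I * B) := by ring
    rw [this, h1, hh]
    ring
  exact abs_eq_abs.1 h5

/-- brick ONE2. The trivial character. -/
theorem t_ONE2 (h0 : S_ZETA0X) (hL : S_LIM1X) (hI : S_SIND) (hTP : S_TPART) (hBa : S_BASIS)
    (hR1 : S_RANK1) (hK : S_KH1) (hAV : S_AVK) (hPl : S_PLACES) : S_ONE2 := by
  intro F H G _ _ _ _ _ _ _ _ _ D T hT hG hdvd
  obtain ⟨f, hf, hfl, hfr, -, ⟨p1, hp1, hp1'⟩, -, hact⟩ := hPl F H G D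
  obtain ⟨q, hq, hqv⟩ := hL h0 F D.S (D.L 1) (D.analytic 1) (fun s hs => by
    simpa using D.euler 1 s hs)
  have hc : 0 < Fintype.card (InfinitePlace F) := Fintype.card_pos
  -- the places of `F` in `S`
  have hcardP : ∃ P : Finset (InfinitePlace F ⊕ HeightOneSpectrum (𝓞 F)), (∀ p, p ∈ P ↔ InSF D p) ∧
      P.card = Fintype.card (InfinitePlace F) + D.S.card := by
    refine ⟨Finset.univ.disjSum D.S, ?_, ?_⟩
    · rintro (p | p)
      · simp [InSF]
      · simp [InSF]
    · rw [Finset.card_disjSum, Finset.card_univ]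
  obtain ⟨P, hP, hPc⟩ := hcardP
  have hcases : ∀ a, (∃ w, D.w a = Sum.inl w) ∨ ∃ w, D.w a = Sum.inr w := by
    intro a
    rcases D.w a with w | w
    · exact Or.inl ⟨w, rfl⟩
    · exact Or.inr ⟨w, rfl⟩
  have hfP : ∀ a, f a ∈ P := by
    intro a
    rw [hP]
    rcases hcases a with ⟨w, hw⟩ | ⟨w, hw⟩
    · rw [hfl a w hw]
      trivial
    · obtain ⟨v, hv1, hv2, -⟩ := hfr a w hw
      rw [hv1]
      exact hv2
  constructor
  · intro hna
    rw [hact] at hna
    push Not at hna
    obtain ⟨p, p', hp, hp', hpf, hpf', hne⟩ := hna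
    have hlt : D.r < Fintype.card (InfinitePlace F) + D.S.card - 1 := by
      classical
      have h1 : insert p (insert p' (Finset.univ.image f)) ⊆ P := by
        intro x hx
        simp only [Finset.mem_insert, Finset.mem_image, Finset.mem_univ, true_and] at hx
        rcases hx with rfl | rfl | ⟨a, rfl⟩
        · exact (hP _).2 hp
        · exact (hP _).2 hp'
        · exact hfP a
      have h2 := Finset.card_le_card h1
      rw [Finset.card_insert_of_notMem, Finset.card_insert_of_notMem,
        Finset.card_image_of_injective _ hf, Finset.card_univ, Fintype.card_fin, hPc] at h2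
      · omega
      · simpa using hpf'
      · simp only [Finset.mem_insert, Finset.mem_image, Finset.mem_univ, true_and, not_or]
        exact ⟨hne, hpf⟩
    obtain ⟨k, hk⟩ := Nat.exists_eq_add_of_lt hlt
    have h3 : Tendsto (fun s : ℂ => s ^ (k + 1)) (𝓝[≠] 0) (𝓝 0) := by
      have h4 : Tendsto (fun s : ℂ => s ^ (k + 1)) (𝓝 0) (𝓝 (0 ^ (k + 1))) :=
        (continuous_pow (k + 1)).tendsto 0
      rw [zero_pow (Nat.succ_ne_zero k)] at h4
      exact h4.mono_left nhdsWithin_le_nhds
    have h5 := h3.mul hq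
    rw [zero_mul] at h5
    refine h5.congr' ?_
    filter_upwards [self_mem_nhdsWithin] with s hs
    have hs' : s ≠ 0 := hs
    rw [hk, pow_add, pow_add, pow_add]
    field_simp
  · intro ha
    rw [hact] at ha
    have huniq : ∀ p, InSF D p → p ≠ p1 → p ∈ Set.range f := by
      intro p hp hne
      by_contra hcon
      exact hne (ha p p1 hp hp1 hcon hp1')
    have hr : D.r + 1 = Fintype.card (InfinitePlace F) + D.S.card := by
      classical
      have h1 : insert p1 (Finset.univ.image f) = P := by
        ext x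
        simp only [Finset.mem_insert, Finset.mem_image, Finset.mem_univ, true_and]
        constructor
        · rintro (rfl | ⟨a, rfl⟩)
          · exact (hP _).2 hp1
          · exact hfP a
        · intro hx
          by_cases hxp : x = p1
          · exact Or.inl hxp
          · exact Or.inr (huniq x ((hP _).1 hx) hxp)
      have h2 := congrArg Finset.card h1
      rw [Finset.card_insert_of_notMem, Finset.card_image_of_injective _ hf, Finset.card_univ,
        Fintype.card_fin, hPc] at h2
      · exact h2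
      · simpa using hp1'
    rw [← hr, Nat.add_sub_cancel] at hq
    rw [← hr, Nat.sub_self, zero_add] at hdvd
    -- the map from `F^*` to `H^*`
    let j : Fˣ →* Hˣ := Units.map (algebraMap F H : F →* H)
    have hj : Function.Injective j := by
      intro a b hab
      apply Units.ext
      apply (algebraMap F H).injective
      exact congrArg (fun x : Hˣ => (x : H)) hab
    obtain ⟨hK1, hK2⟩ := hK F H G D
    have hK1' : (SU F D.S).map j = part (D.U ∅) (1 : G →* ℂˣ) := hK1
    have hK2' : (mu F).map j = part (mu H) (1 : G →* ℂˣ) := hK2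
    have hsq : ((part (D.U ∅) (1 : G →* ℂˣ)).map (powMonoidHom 2)).relIndex
        (part (D.U ∅) (1 : G →* ℂˣ)) = 2 ^ (D.r + 1) := by
      rw [← hK1', Subgroup.map_map]
      have h1 : (powMonoidHom 2 : Hˣ →* Hˣ).comp j = j.comp (powMonoidHom 2) := by
        ext x
        simp
      rw [h1, ← Subgroup.map_map, Subgroup.relIndex_map_map_of_injective _ _ hj, hR1 F D.S, hr]
    obtain ⟨x, hx1, hx2⟩ := hBa F H G D 1 hG T hT D.r hsq
    obtain ⟨b, hb1, hb2⟩ := hTP F H G D 1 hG T hT.1 D.r hsq
    have hxU : ∀ c, x c ∈ part (D.U ∅) (1 : G →* ℂˣ) := by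
      intro c
      have h1 : x c ∈ part (D.U T) (1 : G →* ℂˣ) := by
        rw [← hx1]
        exact Subgroup.subset_closure ⟨c, rfl⟩
      obtain ⟨⟨h2, -⟩, h3, h4⟩ := h1
      refine ⟨⟨h2, fun w hw => ?_⟩, h3, h4⟩
      obtain ⟨v', hv', -⟩ := hw
      simp at hv'
    have hxy : ∀ c, ∃ y : Fˣ, y ∈ SU F D.S ∧ j y = x c := by
      intro c
      have h1 := hxU c
      rw [← hK1'] at h1
      exact Subgroup.mem_map.1 h1
    choose y hyS hyx using hxy
    -- the index theorem
    have hind := hI F D.S (Fin D.r) (fun a => f a) hf (by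
      intro a w hw
      rcases hcases a with ⟨w', hw'⟩ | ⟨w', hw'⟩
      · rw [hfl a w' hw'] at hw
        exact absurd hw (by simp)
      · obtain ⟨v, hv1, hv2, -⟩ := hfr a w' hw'
        rw [hv1] at hw
        rw [← Sum.inr_injective hw]
        exact hv2) (by rw [Fintype.card_fin, hr]) y hyS
    have hrange : (Subgroup.closure (Set.range y) ⊔ mu F).map j =
        Subgroup.closure (Set.range x) ⊔ part (mu H) (1 : G →* ℂˣ) := by
      rw [Subgroup.map_sup, hK2', MonoidHom.map_closure, ← Set.range_comp]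
      congr 2
      congr 1
      funext c
      exact hyx c
    have hindex : (Subgroup.closure (Set.range y) ⊔ mu F).relIndex (SU F D.S) *
        Units.torsionOrder F = (part (D.U T) (1 : G →* ℂˣ)).relIndex
          (part (D.U ∅) (1 : G →* ℂˣ)) := by
      rw [← hx2, ← hrange, ← hK1', ← hK2', Subgroup.relIndex_map_map_of_injective _ _ hj,
        ← card_mu F]
      congr 1
      exact (Subgroup.card_map_of_injective hj).symm
    -- the class numbers
    have hcl : (classNumber F : ℝ) = ((CA (D.S : Set (HeightOneSpectrum (𝓞 F)))).index : ℝ) *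
        (Nat.card (CA (D.S : Set (HeightOneSpectrum (𝓞 F)))) : ℝ) := by
      have h1 := (CA (D.S : Set (HeightOneSpectrum (𝓞 F)))).card_mul_index
      have h2 : Nat.card (ClassGroup (𝓞 F)) = classNumber F := by
        rw [classNumber, Nat.card_eq_fintype_card]
      rw [h2] at h1
      rw [← h1]
      push_cast
      ring
    obtain ⟨c, hbc⟩ := hdvd.trans hb2
    have hsgn : ∀ g : G, sgn (1 : G →* ℂˣ) g = 1 := by
      intro g
      unfold sgn
      rw [if_pos]
      rfl
    -- the product over `T`
    have hprod : ((part (D.U T) (1 : G →* ℂˣ)).relIndex (part (D.U ∅) (1 : G →* ℂˣ)) : ℝ) *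
        (b : ℝ) = ∏ v ∈ T, ((Ideal.absNorm v.asIdeal : ℝ) -
          ((sgn (1 : G →* ℂˣ) (D.σ v) : ℤ) : ℝ)) := by
      have h1 := congrArg (fun z : ℤ => (z : ℝ)) hb1
      push_cast at h1
      exact h1
    have hprod0 : 0 ≤ ∏ v ∈ T, ((Ideal.absNorm v.asIdeal : ℝ) -
          ((sgn (1 : G →* ℂˣ) (D.σ v) : ℤ) : ℝ)) := by
      rw [← hprod]
      positivity
    have hdet : Matrix.det (Matrix.of fun a b : Fin D.r =>
        Real.log (av (D.w a) ((x b : Hˣ) : H))) = (logM (fun a => f a) y).det := by
      congr 1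
      ext a b
      change Real.log (av (D.w a) ((x b : Hˣ) : H)) = Real.log (av (f a) ((y b : Fˣ) : F))
      rw [← hyx b]
      obtain ⟨u, p, hu, -, -, hav⟩ := hAV F H G F (D.w a) (D.splits a)
      have h1 : av (D.w a) (((j (y b) : Hˣ)) : H) = av u ((y b : Fˣ) : F) := hav _
      have h2 : u = f a := by
        rcases hcases a with ⟨w', hw'⟩ | ⟨w', hw'⟩
        · rw [hfl a w' hw']
          rw [hw'] at hu
          rcases u with u | u
          · exact congrArg Sum.inl hu.symm
          · exact absurd hu (by simp [Below])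
        · obtain ⟨v, hv1, -, hv3⟩ := hfr a w' hw'
          rw [hv1]
          rw [hw'] at hu
          rcases u with u | u
          · exact absurd hu (by simp [Below])
          · obtain ⟨v1, hv1', h4⟩ := hv3
            obtain ⟨v2, hv2', h5⟩ := (hu : Above {u} w')
            rw [Set.mem_singleton_iff] at hv1' hv2'
            subst hv1' hv2'
            congr 1
            exact HeightOneSpectrum.ext (by rw [← h4, ← h5])
      rw [h1, h2]
    have hfin := final (q := q) (wF := Units.torsionOrder F) (h := classNumber F)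
      (hS := ((CA (D.S : Set (HeightOneSpectrum (𝓞 F)))).index : ℝ))
      (c := (Nat.card (CA (D.S : Set (HeightOneSpectrum (𝓞 F)))) : ℝ))
      (R := Units.regulator F) (P := ∏ v ∈ D.S, Real.log (Ideal.absNorm v.asIdeal))
      (det := (logM (fun a => f a) y).det)
      (I := ((Subgroup.closure (Set.range y) ⊔ mu F).relIndex (SU F D.S) : ℝ)) (B := (b : ℝ))
      (X := ((part (D.U T) (1 : G →* ℂˣ)).relIndex (part (D.U ∅) (1 : G →* ℂˣ)) : ℝ))
      (σ := ∏ v ∈ T, ((Ideal.absNorm v.asIdeal : ℝ) - ((sgn (1 : G →* ℂˣ) (D.σ v) : ℤ) : ℝ)))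
      hcl hqv hind (by
        rw [← hindex]
        push_cast
        ring) hprod (by positivity) hprod0
    have hbR : (b : ℝ) = (Nat.card G : ℝ) * (c : ℝ) := by
      rw [hbc]
      push_cast
      rfl
    rcases hfin with h | h
    · refine ⟨x, q, (CA (D.S : Set (HeightOneSpectrum (𝓞 F)))).index * c, hx1, hq, ?_⟩
      rw [h, hdet, hbR]
      push_cast
      ring
    · refine ⟨x, q, -((CA (D.S : Set (HeightOneSpectrum (𝓞 F)))).index * c : ℤ), hx1, hq, ?_⟩
      rw [h, hdet, hbR]
      push_cast
      ring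

end Pool.Agent.K3h35.E2
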